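import Pool.Agent.helper53.ORT.Spec

/-!
# ort: PRP (the case `r = p`)
-/

set_option autoImplicit false

namespace Pool.Agent.ORT

open Module Pool.Agent.GS

/-- The bilinear form `(u, v) ↦ B u (y v)` for linear `y`. -/
theorem PRP_form {F V : Type} [Field F] [AddCommGroup V] [Module F V]
    (B : LinearMap.BilinForm F V) (y : Equiv.Perm V) (hy : Lin F y) :
    ∃ S : LinearMap.BilinForm F V, ∀ u v, S u v = B u (y v) := by
  let L : V →ₗ[F] V := { toFun := y, map_add' := hy.1, map_smul' := hy.2 }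
  exact ⟨B.compl₁₂ LinearMap.id L, fun u v => rfl⟩

/-- The prime divisor of the order of a finite field. -/
theorem PRP_char {F : Type} [Field F] [Finite F] {r : ℕ} (hr : r.Prime)
    (h : r ∣ Nat.card F) : r = ringChar F := by
  haveI := Fintype.ofFinite F
  obtain ⟨n, hp, hn⟩ := FiniteField.card F (ringChar F)
  rw [Nat.card_eq_fintype_card, hn] at h
  exact (Nat.prime_dvd_prime_iff_eq hr hp).1 (hr.dvd_of_dvd_pow h)

theorem PRP (cw2 : CW2_stmt) (ppa : PPA_stmt) (ppb : PPB_stmt) (pps : PPS_stmt) (dso : DSO_stmt)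
    (upn : UPN_stmt) : PRP_stmt := by
  intro F V _ _ _ _ _ B hc hB hn y ψ ν hy hs l κ hl hκ hyl r hr hr2 hrd
  have hre : r = ringChar F := PRP_char hr hrd
  have h2r : 2 ≤ r - 1 := by
    have h2 := hr.two_le
    omega
  have key : ∃ z ∈ Om B, Gn B y 2 z ∧ z ≠ 1 ∧ UP z := by
    by_cases hψ : ∃ x, ψ x ≠ x
    · exact pps B hc hB (by omega) y ψ ν hy hψ (dso B hc hB hn y ψ ν hy hψ l κ hl hκ hyl).1
    · have hψ' : ψ = RingEquiv.refl F := by
        ext x
        by_contra hx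
        exact hψ ⟨x, hx⟩
      subst hψ'
      have hlin : Lin F y := ⟨hy.add, fun c v => hy.smul c v⟩
      obtain ⟨S, hS⟩ := PRP_form B y hlin
      obtain ⟨u, hu, hu1, hu2⟩ := cw2 B S hn
      rw [hS] at hu2
      by_cases he : ∃ c : F, y u = c • u
      · obtain ⟨c, hcu⟩ := he
        exact ppa B hc hB (by omega) y ν hy hs u c hu hu1 hcu
      · exact ppb B hc hB hn y ν hy u hu1 hu2 fun c hcu => he ⟨c, hcu⟩
  obtain ⟨z, hz, hg, hz1, hzu⟩ := key
  refine ⟨z, hz, hg.mono h2r, ?_⟩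
  rw [hre]
  exact upn hc z (Om_le B hz).1 hz1 hzu

end Pool.Agent.ORT
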